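import Pool.Agent.Helper74.RG.DefsG

/-!
# Block G8
-/

set_option autoImplicit false

namespace Pool.Agent.Helper47.RG

open Pool.Agent.Helper74.RG Module

section

variable {p s : ℕ} [Fact p.Prime] {G : Type} [Group G] (D : Dat p s G)
  {H : Type} [AddCommGroup H] [Module (ZMod p) H] {ρ : G →* Module.End (ZMod p) H}

theorem phi_one (D : Dat p s G) : D.φ 1 = 0 := by
  have h := D.mul 1 1
  rw [mul_one] at h
  exact left_eq_add.mp h

/-- `φ` as a homomorphism. -/
def phiHom (D : Dat p s G) : D.V →* Multiplicative (Fin s → ℤ_[p]) where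
  toFun v := Multiplicative.ofAdd (D.φ v)
  map_one' := by rw [phi_one]; rfl
  map_mul' a b := by rw [D.mul]; rfl

theorem phiHom_apply (D : Dat p s G) (v : D.V) :
    Multiplicative.toAdd (phiHom D v) = D.φ v := rfl

theorem phi_pow (D : Dat p s G) (v : D.V) (n : ℕ) : D.φ (v ^ n) = n • D.φ v := by
  rw [← phiHom_apply, map_pow, toAdd_pow, phiHom_apply]

theorem phi_inv (D : Dat p s G) (v : D.V) : D.φ v⁻¹ = - D.φ v := by
  rw [← phiHom_apply, map_inv, toAdd_inv, phiHom_apply]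

/-- the monomials in the `t i`. -/
noncomputable def tm (D : Dat p s G) (α : Fin s → Fin p) : D.V :=
  (List.ofFn fun i => (D.t i) ^ (α i : ℕ)).prod

theorem coe_tm (D : Dat p s G) (α : Fin s → Fin p) :
    ((tm D α : D.V) : G) = (List.ofFn fun i => ((D.t i : G)) ^ (α i : ℕ)).prod := by
  unfold tm
  rw [← Subgroup.coe_subtype, map_list_prod, List.map_ofFn]
  rfl

theorem phi_list (D : Dat p s G) : ∀ (n : ℕ) (u : Fin n → D.V),
    D.φ (List.ofFn u).prod = ∑ i, D.φ (u i) := by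
  intro n
  induction n with
  | zero => intro u; simp [phi_one]
  | succ n ih => intro u; rw [List.ofFn_succ, List.prod_cons, D.mul, ih, Fin.sum_univ_succ]

theorem phi_tm (D : Dat p s G) (α : Fin s → Fin p) (i : Fin s) :
    D.φ (tm D α) i = ((α i : ℕ) : ℤ_[p]) := by
  unfold tm
  rw [phi_list, Finset.sum_apply, Finset.sum_eq_single i]
  · rw [phi_pow, D.ht, Pi.smul_apply, Pi.single_eq_same, nsmul_one]
  · intro j _ hj
    rw [phi_pow, D.ht, Pi.smul_apply, Pi.single_eq_of_ne (Ne.symm hj), smul_zero]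
  · intro h; exact absurd (Finset.mem_univ i) h

theorem A_le (D : Dat p s G) (j : ℕ) : D.A j ≤ D.V := by
  intro g hg
  rw [D.mem_A] at hg
  exact hg.1

theorem mem_A_one (D : Dat p s G) (v : D.V) :
    (v : G) ∈ D.A 1 ↔ ∀ i, (p : ℤ_[p]) ∣ D.φ v i := by
  rw [D.mem_A]
  constructor
  · rintro ⟨h, h1⟩ i
    have := h1 i
    rwa [pow_one] at this
  · intro h
    refine ⟨v.2, fun i => ?_⟩
    rw [pow_one]
    exact h i

theorem padic_dvd_iff (x : ℤ_[p]) : (p : ℤ_[p]) ∣ x ↔ PadicInt.toZMod x = 0 := by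
  rw [← RingHom.mem_ker, PadicInt.ker_toZMod, PadicInt.maximalIdeal_eq_span_p,
    Ideal.mem_span_singleton]

theorem exists_tm (D : Dat p s G) (v : D.V) : ∃ α : Fin s → Fin p,
    (((v : G))⁻¹ * ((tm D α : D.V) : G)) ∈ D.A 1 := by
  have hp : 0 < p := (Fact.out : p.Prime).pos
  have : NeZero p := ⟨hp.ne'⟩
  refine ⟨fun i => ⟨(PadicInt.toZMod (D.φ v i)).val, ZMod.val_lt _⟩, ?_⟩
  have := (mem_A_one D (v⁻¹ * tm D (fun i => ⟨(PadicInt.toZMod (D.φ v i)).val, ZMod.val_lt _⟩))).mpr ?_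
  · exact this
  · intro i
    rw [padic_dvd_iff, D.mul, phi_inv, Pi.add_apply, Pi.neg_apply, phi_tm, map_add, map_neg,
      map_natCast, ZMod.natCast_zmod_val, neg_add_cancel]

theorem tm_inj (D : Dat p s G) {α β : Fin s → Fin p}
    (h : ((tm D α : D.V) : G)⁻¹ * ((tm D β : D.V) : G) ∈ D.A 1) : α = β := by
  have h1 := (mem_A_one D ((tm D α)⁻¹ * tm D β)).mp h
  funext i
  have h2 := h1 i
  rw [padic_dvd_iff, D.mul, phi_inv, Pi.add_apply, Pi.neg_apply, phi_tm, phi_tm, map_add, map_neg,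
      map_natCast, map_natCast, neg_add_eq_sub, sub_eq_zero, ZMod.natCast_eq_natCast_iff'] at h2
  rw [Nat.mod_eq_of_lt (α i).2, Nat.mod_eq_of_lt (β i).2] at h2
  exact Fin.ext h2.symm

instance instNormalA (D : Dat p s G) (j : ℕ) : (D.A j).Normal := D.normal j

/-- the finite quotient. -/
abbrev QQ (D : Dat p s G) : Type := G ⧸ D.A 1

theorem mk_eq_iff (D : Dat p s G) (a b : G) :
    (QuotientGroup.mk' (D.A 1) a = QuotientGroup.mk' (D.A 1) b) ↔ a⁻¹ * b ∈ D.A 1 :=
  QuotientGroup.eq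

/-- the image of `V`. -/
noncomputable def V' (D : Dat p s G) : Subgroup (QQ D) := D.V.map (QuotientGroup.mk' (D.A 1))

/-- the monomials modulo `A 1`. -/
noncomputable def tmQ (D : Dat p s G) (α : Fin s → Fin p) : V' D :=
  ⟨QuotientGroup.mk' (D.A 1) ((tm D α : D.V) : G), Subgroup.mem_map_of_mem _ (tm D α).2⟩

theorem tmQ_bij (D : Dat p s G) : Function.Bijective (tmQ D) := by
  constructor
  · intro α β h
    exact tm_inj D ((mk_eq_iff D _ _).mp (congrArg Subtype.val h))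
  · rintro ⟨x, hx⟩
    obtain ⟨v, hv, rfl⟩ := Subgroup.mem_map.mp hx
    obtain ⟨α, hα⟩ := exists_tm D ⟨v, hv⟩
    exact ⟨α, Subtype.ext ((mk_eq_iff D _ _).mpr hα).symm⟩

theorem comap_map (D : Dat p s G) {U : Subgroup G} (hU : D.A 1 ≤ U) (g : G) :
    QuotientGroup.mk' (D.A 1) g ∈ U.map (QuotientGroup.mk' (D.A 1)) ↔ g ∈ U := by
  constructor
  · intro h
    obtain ⟨u, hu, h1⟩ := Subgroup.mem_map.mp h
    have h2 := hU ((mk_eq_iff D _ _).mp h1)
    have := U.mul_mem hu h2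
    rwa [mul_inv_cancel_left] at this
  · intro h
    exact Subgroup.mem_map_of_mem _ h

theorem index_map (D : Dat p s G) {U : Subgroup G} (hU : D.A 1 ≤ U) :
    (U.map (QuotientGroup.mk' (D.A 1))).index = U.index := by
  rw [Subgroup.index_map, MonoidHom.range_eq_top.mpr (QuotientGroup.mk'_surjective _),
    QuotientGroup.ker_mk', sup_of_le_left hU, Subgroup.index_top, mul_one]

theorem finite_QQ (D : Dat p s G) : Finite (QQ D) := by
  have h1 : Finite (V' D) := Finite.of_surjective _ (tmQ_bij D).2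
  have h2 : (V' D).index ≠ 0 := by
    unfold V'
    rw [index_map D (A_le D 1)]
    exact D.fin
  have h3 : Nat.card (QQ D) ≠ 0 := by
    rw [← Subgroup.card_mul_index (V' D)]
    exact mul_ne_zero Nat.card_pos.ne' h2
  exact Nat.finite_of_card_ne_zero h3

/-- the vectors fixed by `A 1`. -/
abbrev WW (D : Dat p s G) (ρ : G →* Module.End (ZMod p) H) : Submodule (ZMod p) H :=
  fixed ρ (D.A 1)

theorem WW_stab (D : Dat p s G) (ρ : G →* Module.End (ZMod p) H) (g : G) :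
    ∀ w ∈ WW D ρ, ρ g w ∈ WW D ρ := by
  intro w hw a ha
  have h1 : a * g = g * (g⁻¹ * a * g) := by group
  have h2 : g⁻¹ * a * g ∈ D.A 1 := by
    have := (D.normal 1).conj_mem a ha g⁻¹
    rwa [inv_inv] at this
  rw [← Module.End.mul_apply, ← map_mul, h1, map_mul, Module.End.mul_apply, hw _ h2]

/-- the action on the vectors fixed by `A 1`. -/
noncomputable def ρG (D : Dat p s G) (ρ : G →* Module.End (ZMod p) H) :
    G →* Module.End (ZMod p) (WW D ρ) where
  toFun g := (ρ g).restrict (WW_stab D ρ g)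
  map_one' := by
    apply LinearMap.ext
    intro w
    apply Subtype.ext
    rw [LinearMap.coe_restrict_apply, map_one]
    rfl
  map_mul' a b := by
    apply LinearMap.ext
    intro w
    apply Subtype.ext
    rw [LinearMap.coe_restrict_apply, map_mul]
    rfl

theorem ρG_coe (D : Dat p s G) (ρ : G →* Module.End (ZMod p) H) (g : G) (w : WW D ρ) :
    ((ρG D ρ g w : WW D ρ) : H) = ρ g w := rfl

/-- the action of the finite quotient. -/
noncomputable def ρQ (D : Dat p s G) (ρ : G →* Module.End (ZMod p) H) :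
    QQ D →* Module.End (ZMod p) (WW D ρ) :=
  QuotientGroup.lift (D.A 1) (ρG D ρ) (by
    intro a ha
    apply LinearMap.ext
    intro w
    apply Subtype.ext
    rw [ρG_coe]
    exact w.2 a ha)

theorem ρQ_coe (D : Dat p s G) (ρ : G →* Module.End (ZMod p) H) (g : G) (w : WW D ρ) :
    ((ρQ D ρ (QuotientGroup.mk' (D.A 1) g) w : WW D ρ) : H) = ρ g w := rfl

theorem mem_fixed_V' (D : Dat p s G) (ρ : G →* Module.End (ZMod p) H) (w : WW D ρ) :
    w ∈ fixed (ρQ D ρ) (V' D) ↔ (w : H) ∈ fixed ρ D.V := by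
  constructor
  · intro h v hv
    have := h (QuotientGroup.mk' (D.A 1) v) (Subgroup.mem_map_of_mem _ hv)
    rw [← ρQ_coe D ρ v w, this]
  · intro h x hx
    obtain ⟨v, hv, rfl⟩ := Subgroup.mem_map.mp hx
    apply Subtype.ext
    rw [ρQ_coe]
    exact h v hv

theorem finrank_fixed_V' (D : Dat p s G) (ρ : G →* Module.End (ZMod p) H) :
    finrank (ZMod p) (fixed (ρQ D ρ) (V' D)) = finrank (ZMod p) (fixed ρ D.V) := by
  have h1 : fixed (ρQ D ρ) (V' D) = Submodule.comap (WW D ρ).subtype (fixed ρ D.V) := by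
    ext w
    rw [mem_fixed_V', Submodule.mem_comap]
    rfl
  have h2 : fixed ρ D.V ≤ WW D ρ := fun h hh a ha => hh a (A_le D 1 ha)
  rw [h1]
  exact LinearEquiv.finrank_eq (Submodule.comapSubtypeEquivOfLe h2)

/-- the quotient character. -/
theorem exists_quot_char (D : Dat p s G) {U : Subgroup G} (hU : D.A 1 ≤ U) {M : Type} [Group M]
    (ψ : U →* M) (hψ : Function.Surjective ψ) (h1 : ∀ x : U, (x : G) ∈ D.A 1 → ψ x = 1) :
    ∃ ψ' : U.map (QuotientGroup.mk' (D.A 1)) →* M, Function.Surjective ψ' ∧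
      ∀ (x : U.map (QuotientGroup.mk' (D.A 1))) (u : U),
        (x : QQ D) = QuotientGroup.mk' (D.A 1) u → ψ' x = ψ u := by
  have hex : ∀ x : U.map (QuotientGroup.mk' (D.A 1)), ∃ u : U,
      (x : QQ D) = QuotientGroup.mk' (D.A 1) u := by
    rintro ⟨x, hx⟩
    obtain ⟨u, hu, h2⟩ := Subgroup.mem_map.mp hx
    exact ⟨⟨u, hu⟩, h2.symm⟩
  have hwd : ∀ u u' : U, QuotientGroup.mk' (D.A 1) (u : G) = QuotientGroup.mk' (D.A 1) (u' : G) →
      ψ u = ψ u' := by
    intro u u' h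
    have h2 := h1 (u⁻¹ * u') ((mk_eq_iff D _ _).mp h)
    rw [map_mul, map_inv] at h2
    exact (inv_mul_eq_one.mp h2)
  choose c hc using hex
  refine ⟨MonoidHom.mk' (fun x => ψ (c x)) ?_, ?_, ?_⟩
  · intro x y
    rw [← map_mul]
    apply hwd
    rw [← hc, Subgroup.coe_mul, Subgroup.coe_mul, map_mul, ← hc, ← hc]
  · intro m
    obtain ⟨u, rfl⟩ := hψ m
    refine ⟨⟨QuotientGroup.mk' (D.A 1) (u : G), Subgroup.mem_map_of_mem _ u.2⟩, ?_⟩
    exact hwd _ _ (hc _).symm
  · intro x u h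
    exact hwd _ _ ((hc x).symm.trans h)

/-- the core statement, with the other blocks as hypotheses. -/
theorem index_dvd_core (D : Dat p s G) {ρ : G →* Module.End (ZMod p) H} (hch : HasChain D)
    (hNS : NS (D.T ρ)) (hinv : inv (D.T ρ) = fixed ρ D.V)
    (hbox : box (D.T ρ) p = fixed ρ (D.A 1))
    (hmon : ∀ z ∈ box (D.T ρ) p, mon (D.T ρ) (fun _ => p - 1) z =
      ∑ α : Fin s → Fin p, ρ ((List.ofFn fun i => ((D.t i : G)) ^ (α i : ℕ)).prod) z)
    (hfin : FiniteDimensional (ZMod p) (box (D.T ρ) p))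
    (hchain : ∀ {Q : Type} [Group Q] [Finite Q] {W : Type} [AddCommGroup W]
      [Module (ZMod p) W] [FiniteDimensional (ZMod p) W] (ρ : Q →* Module.End (ZMod p) W)
      (n : ℕ) (U : ℕ → Subgroup Q) (_ : U n = ⊤)
      (_ : ∀ i < n, ∃ ψ : U (i + 1) →* Multiplicative (ZMod (p ^ 2)), Function.Surjective ψ ∧
        ∀ x : U (i + 1), (x : Q) ∈ U i ↔ p ∣ (Multiplicative.toAdd (ψ x)).val)
      (_ : ∀ i < n, U i ≤ U (i + 1))
      (_ : ∀ w ∈ fixed ρ (U 0), ∃ z, ∑ᶠ a : U 0, ρ (a : Q) z = w),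
      finrank (ZMod p) (fixed ρ (U 0)) = (U 0).index * finrank (ZMod p) (fixed ρ ⊤)) :
    D.V.index ∣ finrank (ZMod p) (fixed ρ D.V) := by
  have := finite_QQ D
  have : FiniteDimensional (ZMod p) (WW D ρ) := by rw [WW, ← hbox]; exact hfin
  obtain ⟨n, U, hU0, hUn, hU⟩ := hch
  have hmonoU : ∀ i, i ≤ n → D.V ≤ U i := by
    intro i
    induction i with
    | zero => intro _; rw [hU0]
    | succ i ih => intro hi; exact (ih (by omega)).trans (hU i (by omega)).1
  have hA : ∀ i, i ≤ n → D.A 1 ≤ U i := fun i hi => (A_le D 1).trans (hmonoU i hi)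
  have key := hchain (ρQ D ρ) n (fun i => (U i).map (QuotientGroup.mk' (D.A 1))) ?_ ?_ ?_ ?_
  · have e1 : (U 0).map (QuotientGroup.mk' (D.A 1)) = V' D := by rw [hU0]; rfl
    have gen : ∀ S : Subgroup (QQ D), S = V' D →
        finrank (ZMod p) (fixed (ρQ D ρ) S) = S.index * finrank (ZMod p) (fixed (ρQ D ρ) ⊤) →
        D.V.index ∣ finrank (ZMod p) (fixed ρ D.V) := by
      rintro _ rfl h
      rw [finrank_fixed_V'] at h
      have e2 : (V' D).index = D.V.index := index_map D (A_le D 1)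
      rw [h, e2]
      exact dvd_mul_right _ _
    exact gen _ e1 key
  · change (U n).map _ = ⊤
    rw [hUn]
    exact Subgroup.map_top_of_surjective _ (QuotientGroup.mk'_surjective _)
  · intro i hi
    obtain ⟨_, ψ, hψ, hψ1, hψ2⟩ := hU i hi
    obtain ⟨ψ', h1, h2⟩ := exists_quot_char D (hA (i + 1) (by omega)) ψ hψ hψ2
    refine ⟨ψ', h1, ?_⟩
    rintro ⟨x, hx⟩
    obtain ⟨u, hu, rfl⟩ := Subgroup.mem_map.mp hx
    rw [h2 _ ⟨u, hu⟩ rfl, ← hψ1 ⟨u, hu⟩]
    exact comap_map D (hA i (by omega)) u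
  · intro i hi
    exact Subgroup.map_mono (hU i hi).1
  · have e1 : (U 0).map (QuotientGroup.mk' (D.A 1)) = V' D := by rw [hU0]; rfl
    have gen : ∀ S : Subgroup (QQ D), S = V' D →
        (∀ w ∈ fixed (ρQ D ρ) (V' D), ∃ z, ∑ᶠ a : V' D, ρQ D ρ (a : QQ D) z = w) →
        (∀ w ∈ fixed (ρQ D ρ) S, ∃ z, ∑ᶠ a : S, ρQ D ρ (a : QQ D) z = w) := by
      rintro _ rfl h
      exact h
    apply gen _ e1
    intro w hw
    have hw' := (mem_fixed_V' D ρ w).mp hw
    rw [← hinv] at hw'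
    obtain ⟨z, hz, hz1⟩ := hNS (p - 1) _ hw'
    have hp : p - 1 + 1 = p := Nat.succ_pred_eq_of_pos (Fact.out : p.Prime).pos
    rw [hp] at hz
    have hz2 := hz
    rw [hbox] at hz2
    refine ⟨⟨z, hz2⟩, ?_⟩
    rw [hmon z hz] at hz1
    have : Fintype (V' D) := Fintype.ofFinite _
    rw [finsum_eq_sum_of_fintype]
    rw [← Function.Bijective.sum_comp (tmQ_bij D) (fun a : V' D => ρQ D ρ (a : QQ D) ⟨z, hz2⟩)]
    apply Subtype.ext
    rw [← hz1, ← Submodule.coe_subtype, map_sum]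
    apply Finset.sum_congr rfl
    intro α _
    rw [Submodule.coe_subtype]
    change ((ρQ D ρ (QuotientGroup.mk' (D.A 1) ((tm D α : D.V) : G)) ⟨z, hz2⟩ : WW D ρ) : H) = _
    rw [ρQ_coe, coe_tm]

end

end Pool.Agent.Helper47.RG
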