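import Pool.Agent.Helper47.RG.G8
import Pool.Agent.Helper1.RG.G1
import Pool.Agent.Helper20.RG.G7
import Pool.Agent.Helper55.RG.A1

/-!
# Block G8, final form
-/

set_option autoImplicit false

namespace Pool.Agent.Helper47.RG

open Pool.Agent.Helper74.RG Module

variable {p s : ℕ} [Fact p.Prime] {G : Type} [Group G] (D : Dat p s G)
  {H : Type} [AddCommGroup H] [Module (ZMod p) H] {ρ : G →* Module.End (ZMod p) H}

/-- G8 -/
theorem index_dvd_of_NS (hch : HasChain D) (hs : Sm D ρ)
    [FiniteDimensional (ZMod p) (fixed ρ D.V)] (hNS : NS (D.T ρ)) :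
    D.V.index ∣ finrank (ZMod p) (fixed ρ D.V) := by
  have hinv := Helper1.RG.Sm.inv_eq hs
  have hfd : FiniteDimensional (ZMod p) (inv (D.T ρ)) := by
    rw [hinv]; infer_instance
  have hfin : FiniteDimensional (ZMod p) (box (D.T ρ) p) :=
    Helper55.RG.finite_box (Helper1.RG.Sm.ln hs) p
  have hbox := Helper1.RG.Sm.box_eq hs 1
  rw [pow_one] at hbox
  exact index_dvd_core D hch hNS hinv hbox
    (fun z hz => Helper1.RG.Sm.mon_eq hs hz) hfin (fun ρ n U a b c d =>
      Helper20.RG.chain_finrank ρ n U a b c d)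

end Pool.Agent.Helper47.RG
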